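import Pool.Agent.Q27.SPC.Lab

/-!
# Total permutations from the partial translations
-/

set_option autoImplicit false

namespace Q27.SPC

open SimpleGraph

variable {V G : Type} [Group G] [MulAction G V] {X : SimpleGraph V} {N : Subgroup G}

open Classical in
/-- move along the edge of class `a`, or flip the coordinate `i` -/
noncomputable def mv (a i : Lab X N) (p : V × (Lab X N → Bool)) : V × (Lab X N → Bool) :=
  if Dm a p.1 then (nx a p.1, p.2) else (p.1, Function.update p.2 i (!(p.2 i)))

theorem mv_pos {a i : Lab X N} {x : V} (h : Dm a x) (e : Lab X N → Bool) :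
    mv a i (x, e) = (nx a x, e) := by
  rw [mv, if_pos h]

open Classical in
theorem mv_neg {a i : Lab X N} {x : V} (h : ¬ Dm a x) (e : Lab X N → Bool) :
    mv a i (x, e) = (x, Function.update e i (!(e i))) := by
  rw [mv, if_neg h]

theorem mv_snd {a i j : Lab X N} (hij : i ≠ j) (p : V × (Lab X N → Bool)) :
    (mv a i p).2 j = p.2 j := by
  classical
  obtain ⟨x, e⟩ := p
  by_cases h : Dm a x
  · rw [mv_pos h]
  · rw [mv_neg h]
    exact Function.update_of_ne hij.symm _ _

theorem mv_comm (hS : Special X N) {a b i j : Lab X N} (h : (crossG X N).Adj a b) (hij : i ≠ j)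
    (p : V × (Lab X N → Bool)) : mv a i (mv b j p) = mv b j (mv a i p) := by
  classical
  obtain ⟨x, e⟩ := p
  by_cases ha : Dm a x
  · by_cases hb : Dm b x
    · rw [mv_pos ha, mv_pos hb, mv_pos ((Dm_iff hS h hb).2 ha), mv_pos ((Dm_iff hS h.symm ha).2 hb),
        (nx_comm hS h ha hb).2]
    · rw [mv_pos ha, mv_neg hb, mv_pos ha, mv_neg (fun h1 => hb ((Dm_iff hS h.symm ha).1 h1))]
  · by_cases hb : Dm b x
    · rw [mv_neg ha, mv_pos hb, mv_pos hb, mv_neg (fun h1 => ha ((Dm_iff hS h hb).1 h1))]
    · rw [mv_neg ha, mv_neg hb, mv_neg ha, mv_neg hb, Function.update_of_ne hij,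
        Function.update_of_ne hij.symm, Function.update_comm hij.symm]

/-- translation in the direction `a`, turned around by flipping the coordinate `i` -/
noncomputable def tr (a i : Lab X N) (p : V × (Lab X N → Bool)) : V × (Lab X N → Bool) :=
  if p.2 i then mv (bar a) i p else mv a i p

theorem tr_tr (hS : Special X N) (a i : Lab X N) (p : V × (Lab X N → Bool)) :
    tr (bar a) i (tr a i p) = p := by
  classical
  obtain ⟨x, e⟩ := p
  by_cases he : e i = true
  · have h1 : tr a i (x, e) = mv (bar a) i (x, e) := if_pos he
    rw [h1]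
    by_cases h : Dm (bar a) x
    · rw [mv_pos h]
      have h2 : tr (bar a) i (nx (bar a) x, e) = mv (bar (bar a)) i (nx (bar a) x, e) := if_pos he
      rw [h2, mv_pos (Dm_bar h), nx_bar hS h]
    · rw [mv_neg h]
      have h2 : ¬ (Function.update e i (!(e i))) i = true := by
        rw [Function.update_self, he]
        simp
      have h3 : tr (bar a) i (x, Function.update e i (!(e i))) =
          mv (bar a) i (x, Function.update e i (!(e i))) := if_neg h2
      rw [h3, mv_neg h, Function.update_self, Bool.not_not, Function.update_idem,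
        Function.update_eq_self]
  · have h1 : tr a i (x, e) = mv a i (x, e) := if_neg he
    rw [h1]
    by_cases h : Dm a x
    · rw [mv_pos h]
      have h2 : tr (bar a) i (nx a x, e) = mv (bar a) i (nx a x, e) := if_neg he
      rw [h2, mv_pos (Dm_bar h), nx_bar hS h]
    · rw [mv_neg h]
      have h2 : (Function.update e i (!(e i))) i = true := by
        rw [Function.update_self]
        simpa using he
      have h3 : tr (bar a) i (x, Function.update e i (!(e i))) =
          mv (bar (bar a)) i (x, Function.update e i (!(e i))) := if_pos h2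
      rw [h3, bar_bar, mv_neg h, Function.update_self, Bool.not_not, Function.update_idem,
        Function.update_eq_self]

/-- translations as permutations -/
noncomputable def trP (hS : Special X N) (a i : Lab X N) : Equiv.Perm (V × (Lab X N → Bool)) where
  toFun := tr a i
  invFun := tr (bar a) i
  left_inv := tr_tr hS a i
  right_inv := by
    intro p
    have h := tr_tr hS (bar a) i p
    rwa [bar_bar] at h

theorem tr_comm (hS : Special X N) {a b i j : Lab X N} (h : (crossG X N).Adj a b) (hij : i ≠ j)
    (p : V × (Lab X N → Bool)) : tr a i (tr b j p) = tr b j (tr a i p) := by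
  have key : ∀ (a' : Lab X N) (b' : Lab X N), (crossG X N).Adj a' b' →
      mv a' i (mv b' j p) = mv b' j (mv a' i p) := fun a' b' h' => mv_comm hS h' hij p
  have h1 : ∀ b' : Lab X N, tr a i (mv b' j p) =
      if p.2 i then mv (bar a) i (mv b' j p) else mv a i (mv b' j p) := by
    intro b'
    rw [tr, mv_snd hij.symm]
  have h2 : ∀ a' : Lab X N, tr b j (mv a' i p) =
      if p.2 j then mv (bar b) j (mv a' i p) else mv b j (mv a' i p) := by
    intro a'
    rw [tr, mv_snd hij]
  have hb1 := (cross_bar hS h.symm).symm
  have hb2 := cross_bar hS h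
  have hb3 := cross_bar hS hb1
  by_cases hi : p.2 i = true
  · by_cases hj : p.2 j = true
    · have h3 : tr b j p = mv (bar b) j p := if_pos hj
      have h4 : tr a i p = mv (bar a) i p := if_pos hi
      rw [h3, h4, h1, h2, if_pos hi, if_pos hj, key _ _ hb3]
    · have h3 : tr b j p = mv b j p := if_neg hj
      have h4 : tr a i p = mv (bar a) i p := if_pos hi
      rw [h3, h4, h1, h2, if_pos hi, if_neg hj, key _ _ hb2]
  · by_cases hj : p.2 j = true
    · have h3 : tr b j p = mv (bar b) j p := if_pos hj
      have h4 : tr a i p = mv a i p := if_neg hi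
      rw [h3, h4, h1, h2, if_neg hi, if_pos hj, key _ _ hb1]
    · have h3 : tr b j p = mv b j p := if_neg hj
      have h4 : tr a i p = mv a i p := if_neg hi
      rw [h3, h4, h1, h2, if_neg hi, if_neg hj, key _ _ h]

/-- orientations of the hyperplanes -/
theorem exists_orient (hS : Special X N) : ∃ S : Set (Lab X N), ∀ x y : V, X.Adj x y →
    ((lab x y : Lab X N) ∈ S ↔ (lab y x : Lab X N) ∉ S) := by
  classical
  let r : Lab X N → Lab X N → Prop := fun a b => b = a ∨ b = bar a
  let rep : Lab X N → Lab X N := fun a => (Quot.mk r a).out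
  have hrep : ∀ a, Quot.mk r (rep a) = Quot.mk r a := fun a => Quot.out_eq _
  have hbar : ∀ a, rep (bar a) = rep a := by
    intro a
    have h1 : Quot.mk r a = Quot.mk r (bar a) := Quot.sound (Or.inr rfl)
    show (Quot.mk r (bar a)).out = (Quot.mk r a).out
    rw [← h1]
  have hor : ∀ a, rep a = a ∨ rep a = bar a := by
    intro a
    have h1 : Relation.EqvGen r (rep a) a := Quot.eqvGen_exact (hrep a)
    have h2 : ∀ b c : Lab X N, Relation.EqvGen r b c → b = c ∨ b = bar c := by
      intro b c h
      induction h with
      | rel b c h =>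
        rcases h with h | h
        · exact Or.inl h.symm
        · right
          rw [h, bar_bar]
      | refl b => exact Or.inl rfl
      | symm b c _ ih =>
        rcases ih with h | h
        · exact Or.inl h.symm
        · right
          rw [h, bar_bar]
      | trans b c d _ _ ih1 ih2 =>
        rcases ih1 with h | h <;> rcases ih2 with h' | h'
        · exact Or.inl (h.trans h')
        · exact Or.inr (h.trans h')
        · right
          rw [h, h']
        · left
          rw [h, h', bar_bar]
    exact h2 _ _ h1
  refine ⟨{a | rep a = a}, ?_⟩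
  intro x y hxy
  have hne : (lab x y : Lab X N) ≠ lab y x := fun h => hS.two_sided x y hxy (lab_eq.1 h)
  have h1 : rep (lab y x : Lab X N) = rep (lab x y) := hbar (lab x y)
  show rep (lab x y) = lab x y ↔ ¬ rep (lab y x) = lab y x
  rw [h1]
  constructor
  · intro h h'
    exact hne (h.symm.trans h')
  · intro h
    rcases hor (lab x y) with h2 | h2
    · exact h2
    · exact absurd h2 h

end Q27.SPC
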