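import Pool.Agent.Q27.SPC.Pot

/-!
# Classes of oriented hyperplanes
-/

set_option autoImplicit false

namespace Q27.SPC

open SimpleGraph

variable {V G : Type} [Group G] [MulAction G V] (X : SimpleGraph V) (N : Subgroup G)

/-- elementary moves of oriented edges: to the opposite edge of a 4-cycle, and by elements of `N` -/
inductive Mv : V × V → V × V → Prop
  | sq {x y z w : V} : Sq X x y z w → Mv (x, y) (w, z)
  | act (x y : V) (n : G) : n ∈ N → Mv (x, y) (n • x, n • y)

/-- two oriented edges define the same oriented hyperplane modulo `N` -/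
def Par : V × V → V × V → Prop := Relation.EqvGen (Mv X N)

/-- the (oriented) hyperplanes of two oriented edges cross modulo `N` -/
def Cross (p q : V × V) : Prop :=
  ∃ a b c d : V, Sq X a b c d ∧ Par X N p (a, b) ∧ Par X N q (b, c)

/-- the quotient by `N` is special (Haglund, Wise) -/
structure Special : Prop where
  two_sided : ∀ x y, X.Adj x y → ¬ Par X N (x, y) (y, x)
  no_self : ∀ x y z, X.Adj x y → X.Adj x z → Par X N (x, y) (x, z) → y = z
  no_inter : ∀ x y z, X.Adj x y → X.Adj y z → Cross X N (x, y) (y, z) → ∃ w, Sq X x y z w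

/-- the classes -/
def Lab : Type := Quot (Mv X N)

variable {X N}

/-- the class of an oriented edge -/
def lab (x y : V) : Lab X N := Quot.mk _ (x, y)

theorem lab_eq {x y x' y' : V} : (lab x y : Lab X N) = lab x' y' ↔ Par X N (x, y) (x', y') :=
  ⟨fun h => Quot.eqvGen_exact h, fun h => Quot.eqvGen_sound h⟩

theorem lab_sq {x y z w : V} (h : Sq X x y z w) : (lab x y : Lab X N) = lab w z :=
  Quot.sound (Mv.sq h)

/-- the opposite orientation -/
def bar : Lab X N → Lab X N :=
  Quot.map Prod.swap (by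
    rintro _ _ (⟨h⟩ | ⟨x, y, n, hn⟩)
    · exact Mv.sq h.rev.rot.rot.rot
    · exact Mv.act y x n hn)

@[simp] theorem bar_lab (x y : V) : bar (lab x y : Lab X N) = lab y x := rfl

@[simp] theorem bar_bar (a : Lab X N) : bar (bar a) = a := by
  induction a using Quot.ind with
  | mk p => rfl

theorem Sq.smul (hadj : ∀ (g : G) (v w : V), X.Adj v w → X.Adj (g • v) (g • w)) (g : G)
    {x y z w : V} (h : Sq X x y z w) : Sq X (g • x) (g • y) (g • z) (g • w) :=
  ⟨hadj g _ _ h.1, hadj g _ _ h.2.1, hadj g _ _ h.2.2.1, hadj g _ _ h.2.2.2.1,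
    fun e => h.2.2.2.2.1 (smul_left_cancel g e), fun e => h.2.2.2.2.2 (smul_left_cancel g e)⟩

/-- the action on the classes -/
def actL [N.Normal] (hadj : ∀ (g : G) (v w : V), X.Adj v w → X.Adj (g • v) (g • w)) (g : G) :
    Lab X N → Lab X N :=
  Quot.map (fun p => (g • p.1, g • p.2)) (by
    rintro _ _ (⟨h⟩ | ⟨x, y, n, hn⟩)
    · exact Mv.sq (h.smul hadj g)
    · have h1 := Mv.act (X := X) (N := N) (g • x) (g • y) (g * n * g⁻¹)
        (Subgroup.Normal.conj_mem inferInstance n hn g)
      have h2 : ∀ v : V, (g * n * g⁻¹) • g • v = g • n • v := by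
        intro v
        rw [smul_smul, smul_smul, inv_mul_cancel_right]
      rw [h2, h2] at h1
      exact h1)

theorem actL_lab [N.Normal] (hadj : ∀ (g : G) (v w : V), X.Adj v w → X.Adj (g • v) (g • w)) (g : G)
    (x y : V) : actL hadj g (lab x y : Lab X N) = lab (g • x) (g • y) := rfl

/-- the action on the classes as a homomorphism -/
def permL [N.Normal] (hadj : ∀ (g : G) (v w : V), X.Adj v w → X.Adj (g • v) (g • w)) :
    G →* Equiv.Perm (Lab X N) where
  toFun g :=
    { toFun := actL hadj g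
      invFun := actL hadj g⁻¹
      left_inv := by
        intro a
        induction a using Quot.ind with
        | mk p =>
          obtain ⟨x, y⟩ := p
          show lab (g⁻¹ • g • x) (g⁻¹ • g • y) = lab x y
          rw [inv_smul_smul, inv_smul_smul]
      right_inv := by
        intro a
        induction a using Quot.ind with
        | mk p =>
          obtain ⟨x, y⟩ := p
          show lab (g • g⁻¹ • x) (g • g⁻¹ • y) = lab x y
          rw [smul_inv_smul, smul_inv_smul] }
  map_one' := by
    ext a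
    induction a using Quot.ind with
    | mk p =>
      obtain ⟨x, y⟩ := p
      show lab ((1 : G) • x) ((1 : G) • y) = lab x y
      rw [one_smul, one_smul]
  map_mul' := by
    intro g h
    ext a
    induction a using Quot.ind with
    | mk p =>
      obtain ⟨x, y⟩ := p
      show lab ((g * h) • x) ((g * h) • y) = lab (g • h • x) (g • h • y)
      rw [mul_smul, mul_smul]

theorem permL_lab [N.Normal] (hadj : ∀ (g : G) (v w : V), X.Adj v w → X.Adj (g • v) (g • w)) (g : G)
    (x y : V) : permL hadj g (lab x y : Lab X N) = lab (g • x) (g • y) := rfl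

theorem permL_N [N.Normal] (hadj : ∀ (g : G) (v w : V), X.Adj v w → X.Adj (g • v) (g • w)) (n : G)
    (hn : n ∈ N) : (permL hadj n : Equiv.Perm (Lab X N)) = 1 := by
  ext a
  induction a using Quot.ind with
  | mk p =>
    obtain ⟨x, y⟩ := p
    show lab (n • x) (n • y) = lab x y
    exact (Quot.sound (Mv.act x y n hn)).symm

/-- the action of the quotient on the classes -/
def permQ [N.Normal] (hadj : ∀ (g : G) (v w : V), X.Adj v w → X.Adj (g • v) (g • w)) :
    (G ⧸ N) →* Equiv.Perm (Lab X N) :=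
  QuotientGroup.lift N (permL hadj) (fun n hn => permL_N hadj n hn)

variable (X N) in
/-- the crossing graph of the classes -/
def crossG : SimpleGraph (Lab X N) where
  Adj a b := a ≠ b ∧ ∃ x y z w : V, Sq X x y z w ∧ a = lab x y ∧ b = lab y z
  symm := ⟨by
    rintro a b ⟨hne, x, y, z, w, h, rfl, rfl⟩
    exact ⟨hne.symm, x, w, z, y, h.rev, lab_sq h.rot, lab_sq h⟩⟩
  loopless := ⟨fun a h => h.1 rfl⟩

theorem cross_lab (hS : Special X N) {x y z w : V} (h : Sq X x y z w) :
    (crossG X N).Adj (lab x y) (lab y z) := by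
  refine ⟨?_, x, y, z, w, h, rfl, rfl⟩
  intro he
  have h1 : (lab x y : Lab X N) = lab x w := he.trans (lab_sq h.rot)
  exact h.2.2.2.2.2 (hS.no_self x y w h.1 h.2.2.2.1.symm (lab_eq.1 h1))

theorem cross_bar (hS : Special X N) {a b : Lab X N} (h : (crossG X N).Adj a b) :
    (crossG X N).Adj (bar a) b := by
  obtain ⟨-, x, y, z, w, h, rfl, rfl⟩ := h
  have h1 := cross_lab hS h.rev.rot.rot.rot
  rw [bar_lab, lab_sq h.rot]
  exact h1

theorem cross_act [N.Normal] (hadj : ∀ (g : G) (v w : V), X.Adj v w → X.Adj (g • v) (g • w)) (g : G)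
    {a b : Lab X N} (h : (crossG X N).Adj a b) :
    (crossG X N).Adj (permL hadj g a) (permL hadj g b) := by
  obtain ⟨hne, x, y, z, w, h, rfl, rfl⟩ := h
  exact ⟨fun e => hne ((permL hadj g).injective e), _, _, _, _, h.smul hadj g, rfl, rfl⟩

/-! ### partial translations along the classes -/

/-- there is an edge of class `a` at `x` -/
def Dm (a : Lab X N) (x : V) : Prop := ∃ y, X.Adj x y ∧ lab x y = a

open Classical in
/-- the end of the edge of class `a` at `x` -/
noncomputable def nx (a : Lab X N) (x : V) : V := if h : Dm a x then h.choose else x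

theorem nx_spec {a : Lab X N} {x : V} (h : Dm a x) : X.Adj x (nx a x) ∧ lab x (nx a x) = a := by
  rw [nx, dif_pos h]
  exact h.choose_spec

theorem nx_lab (hS : Special X N) {x y : V} (h : X.Adj x y) : nx (lab x y : Lab X N) x = y := by
  have h1 : Dm (lab x y : Lab X N) x := ⟨y, h, rfl⟩
  obtain ⟨h2, h3⟩ := nx_spec h1
  exact hS.no_self x _ _ h2 h (lab_eq.1 h3)

theorem Dm_bar {a : Lab X N} {x : V} (h : Dm a x) : Dm (bar a) (nx a x) := by
  obtain ⟨h2, h3⟩ := nx_spec h
  exact ⟨x, h2.symm, by rw [← bar_lab, h3]⟩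

theorem nx_bar (hS : Special X N) {a : Lab X N} {x : V} (h : Dm a x) : nx (bar a) (nx a x) = x := by
  obtain ⟨h2, h3⟩ := nx_spec h
  have h4 : bar a = lab (nx a x) x := by rw [← bar_lab, h3]
  rw [h4]
  exact nx_lab hS h2.symm

theorem two_cross (hS : Special X N) {a b : Lab X N} (h : (crossG X N).Adj a b) {x : V}
    (ha : Dm a x) (hb : Dm b x) : ∃ w, X.Adj (nx a x) w ∧ X.Adj (nx b x) w ∧
      lab (nx a x) w = b ∧ lab (nx b x) w = a := by
  obtain ⟨h1, h2⟩ := nx_spec ha
  obtain ⟨h3, h4⟩ := nx_spec hb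
  obtain ⟨-, x', y', z', w', h5, h6, h7⟩ := cross_bar hS h
  obtain ⟨w, hw⟩ := hS.no_inter (nx a x) x (nx b x) h1.symm h3
    ⟨x', y', z', w', h5, lab_eq.1 (by rw [← h6, ← bar_lab, h2]), lab_eq.1 (by rw [← h7, h4])⟩
  refine ⟨w, hw.2.2.2.1.symm, hw.2.2.1, ?_, ?_⟩
  · have h8 : (lab x (nx b x) : Lab X N) = lab (nx a x) w := lab_sq hw.rot
    rw [← h8, h4]
  · have h8 : (lab (nx a x) x : Lab X N) = lab w (nx b x) := lab_sq hw
    have h9 := congrArg bar h8
    rw [bar_lab, bar_lab, h2] at h9
    exact h9.symm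

theorem nx_comm (hS : Special X N) {a b : Lab X N} (h : (crossG X N).Adj a b) {x : V}
    (ha : Dm a x) (hb : Dm b x) : Dm a (nx b x) ∧ nx a (nx b x) = nx b (nx a x) := by
  obtain ⟨w, h1, h2, h3, h4⟩ := two_cross hS h ha hb
  refine ⟨⟨w, h2, h4⟩, ?_⟩
  have h5 := nx_lab hS (N := N) h2
  have h6 := nx_lab hS (N := N) h1
  rw [h4] at h5
  rw [h3] at h6
  rw [h5, h6]

theorem Dm_iff (hS : Special X N) {a b : Lab X N} (h : (crossG X N).Adj a b) {x : V}
    (hb : Dm b x) : Dm a (nx b x) ↔ Dm a x := by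
  constructor
  · intro h1
    have h2 : (crossG X N).Adj a (bar b) := (cross_bar hS h.symm).symm
    have h3 := (nx_comm hS h2 h1 (Dm_bar hb)).1
    rwa [nx_bar hS hb] at h3
  · intro h1
    exact (nx_comm hS h h1 hb).1

end Q27.SPC
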