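import Pool.Agent.Q27.SPC.Act
import Pool.Agent.Q30.FJ.Nov

/-!
# The embedding in a graph-wreath product
-/

set_option autoImplicit false

namespace Q27.SPC

open SimpleGraph
open Pool.Agent.Y110.FJ (ClosedE GrP)
open Q30.FJ (ClosedOver glift glift_of gcomm)

variable {V G : Type} [Group G] [MulAction G V] {X : SimpleGraph V} {N : Subgroup G}

variable (X N) in
/-- the right-angled Artin group of the crossing graph -/
abbrev RG : Type := GrP (crossG X N) (fun _ => Multiplicative ℤ)

/-- the generators -/
def gen (a : Lab X N) : RG X N := GrP.of (crossG X N) (fun _ => Multiplicative ℤ) a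
  (Multiplicative.ofAdd 1)

/-- the element of an oriented edge -/
def phi (x y : V) : RG X N := gen (lab x y) * (gen (lab y x))⁻¹

theorem phi_inv (x y : V) : (phi y x : RG X N) = (phi x y)⁻¹ := by
  rw [phi, phi, mul_inv_rev, inv_inv]

theorem gen_comm {a b : Lab X N} (h : (crossG X N).Adj a b) : Commute (gen a) (gen b) :=
  gcomm h _ _

theorem phi_sq (hS : Special X N) {x y z w : V} (h : Sq X x y z w) :
    (phi x y * phi y z : RG X N) = phi x w * phi w z := by
  have h1 : (lab x w : Lab X N) = lab y z := (lab_sq h.rot).symm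
  have h2 : (lab w x : Lab X N) = lab z y := by
    rw [← bar_lab x w, h1, bar_lab]
  have h3 : (lab w z : Lab X N) = lab x y := (lab_sq h).symm
  have h4 : (lab z w : Lab X N) = lab y x := by
    rw [← bar_lab w z, h3, bar_lab]
  have h5 : (phi x w : RG X N) = phi y z := by rw [phi, phi, h1, h2]
  have h6 : (phi w z : RG X N) = phi x y := by rw [phi, phi, h3, h4]
  rw [h5, h6]
  have k1 : (crossG X N).Adj (lab x y) (lab y z) := cross_lab hS h
  have k2 : (crossG X N).Adj (lab y x) (lab y z) := by
    have := cross_bar hS k1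
    rwa [bar_lab] at this
  have k3 : (crossG X N).Adj (lab x y) (lab z y) := by
    have := (cross_bar hS k1.symm).symm
    rwa [bar_lab] at this
  have k4 : (crossG X N).Adj (lab y x) (lab z y) := by
    have := cross_bar hS k3
    rwa [bar_lab] at this
  have c1 : Commute (gen (lab x y)) (phi y z : RG X N) :=
    (gen_comm k1).mul_right (gen_comm k3).inv_right
  have c2 : Commute (gen (lab y x)) (phi y z : RG X N) :=
    (gen_comm k2).mul_right (gen_comm k4).inv_right
  exact (c1.mul_left c2.inv_left).eq

open Classical in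
/-- the permutation of a generator -/
noncomputable def th (hS : Special X N) (S : Set (Lab X N)) (a : Lab X N) :
    Equiv.Perm (V × (Lab X N → Bool)) :=
  if a ∈ S then trP hS (bar a) a else 1

theorem th_comm (hS : Special X N) (S : Set (Lab X N)) {a b : Lab X N}
    (h : (crossG X N).Adj a b) : Commute (th hS S a) (th hS S b) := by
  classical
  by_cases ha : a ∈ S
  · by_cases hb : b ∈ S
    · rw [th, th, if_pos ha, if_pos hb]
      ext1 p
      have h1 : (crossG X N).Adj (bar a) (bar b) := (cross_bar hS (cross_bar hS h).symm).symm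
      exact tr_comm hS h1 ((crossG X N).ne_of_adj h) p
    · have h1 : th hS S b = 1 := if_neg hb
      rw [h1]
      exact Commute.one_right _
  · have h1 : th hS S a = 1 := if_neg ha
    rw [h1]
    exact Commute.one_left _

/-- the action of the right-angled Artin group -/
noncomputable def Th (hS : Special X N) (S : Set (Lab X N)) :
    RG X N →* Equiv.Perm (V × (Lab X N → Bool)) :=
  glift (fun a => zpowersHom _ (th hS S a)) (by
    intro a b h m n
    rw [zpowersHom_apply, zpowersHom_apply]
    exact ((th_comm hS S h).zpow_zpow _ _).eq)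

theorem Th_gen (hS : Special X N) (S : Set (Lab X N)) (a : Lab X N) :
    Th hS S (gen a) = th hS S a := by
  rw [Th, gen, glift_of, zpowersHom_apply]
  exact zpow_one _

theorem Th_phi (hS : Special X N) {S : Set (Lab X N)} (hor : ∀ x y : V, X.Adj x y →
    ((lab x y : Lab X N) ∈ S ↔ (lab y x : Lab X N) ∉ S)) {x y : V} (h : X.Adj x y) :
    Th hS S (phi x y) (y, fun _ => false) = (x, fun _ => false) := by
  rw [phi, map_mul, map_inv, Th_gen, Th_gen]
  by_cases hc : (lab x y : Lab X N) ∈ S
  · have h1 : th hS S (lab y x) = 1 := if_neg ((hor x y h).1 hc)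
    have h2 : th hS S (lab x y) = trP hS (bar (lab x y)) (lab x y) := if_pos hc
    rw [h1, h2, inv_one, mul_one, bar_lab]
    show tr (lab y x) (lab x y) (y, fun _ => false) = _
    have h3 : tr (lab y x) (lab x y) (y, fun _ => false) =
      mv (lab y x) (lab x y : Lab X N) (y, fun _ => false) := if_neg (by simp)
    rw [h3, mv_pos ⟨x, h.symm, rfl⟩, nx_lab hS h.symm]
  · have hd : (lab y x : Lab X N) ∈ S := by
      by_contra hd
      exact hc ((hor x y h).2 hd)
    have h1 : th hS S (lab x y) = 1 := if_neg hc
    have h2 : th hS S (lab y x) = trP hS (bar (lab y x)) (lab y x) := if_pos hd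
    rw [h1, h2, one_mul, bar_lab, Equiv.Perm.inv_eq_iff_eq]
    show _ = tr (lab x y) (lab y x) (x, fun _ => false)
    have h3 : tr (lab x y) (lab y x) (x, fun _ => false) =
      mv (lab x y) (lab y x : Lab X N) (x, fun _ => false) := if_neg (by simp)
    rw [h3, mv_pos ⟨y, h, rfl⟩, nx_lab hS h]

/-- **the potential is injective** -/
theorem pot_inj (hX : Med X) (hS : Special X N) (x₀ : V) (f : V → RG X N) (h0 : f x₀ = 1)
    (hf : ∀ x y, X.Adj x y → f y = f x * phi x y) : Function.Injective f := by
  obtain ⟨S, hor⟩ := exists_orient hS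
  have key : ∀ x, Th hS S (f x) (x, fun _ => false) = (x₀, fun _ => false) := by
    intro x
    obtain ⟨p⟩ := hX.1.preconnected x x₀
    induction p with
    | nil => rw [h0, map_one]; rfl
    | cons hadj _ ih =>
      have h1 := ih h0
      rw [hf _ _ hadj, map_mul, Equiv.Perm.mul_apply, Th_phi hS hor hadj] at h1
      exact h1
  intro x y hxy
  have h1 := key x
  rw [hxy, ← key y] at h1
  have h2 := (Th hS S (f y)).injective h1
  exact congrArg Prod.fst h2

variable {C D : ∀ (G : Type) [Group G], Prop}

/-- semidirect products of graph products -/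
theorem gw_mem (hC : ClosedE C) (hD : ClosedOver C D)
    (V Q A : Type) [Group Q] [Group A] [MulAction Q V] (Λ : SimpleGraph V)
    (hΛ : ∀ (q : Q) (v w : V), Λ.Adj v w → Λ.Adj (q • v) (q • w))
    (α : Q →* MulAut (GrP Λ (fun _ => A)))
    (hα : ∀ (q : Q) v (x : A),
      α q (GrP.of Λ (fun _ => A) v x) = GrP.of Λ (fun _ => A) (q • v) x)
    (hA : C A) (hQ : D Q) : D (GrP Λ (fun _ => A) ⋊[α] Q) := by
  refine hD.ext _ Q SemidirectProduct.rightHom SemidirectProduct.rightHom_surjective hQ ?_
  intro U hU
  have h1 : C (GrP Λ (fun _ => A) ⋊[α.comp U.subtype] U) :=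
    Q30.FJ.gw C hC V U A Λ (α.comp U.subtype) (fun q => hΛ q) (fun q v x => hα q v x) hA
      (Q30.FJ.vc_mem hC.base U hU)
  refine hC.base.of_injective _ _ (MonoidHom.mk' (fun x =>
    (⟨x.1.left, ⟨x.1.right, x.2⟩⟩ : GrP Λ (fun _ => A) ⋊[α.comp U.subtype] U)) ?_) ?_ h1
  · intro x y
    rfl
  · intro x y hxy
    have h2 := congrArg SemidirectProduct.left hxy
    have h3 := congrArg SemidirectProduct.right hxy
    apply Subtype.ext
    apply SemidirectProduct.ext
    · exact h2
    · exact congrArg Subtype.val h3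

/-- **special cube complexes** -/
theorem main (hC : ClosedE C) (hD : ClosedOver C D) [N.Normal] (hX : Med X)
    (hadj : ∀ (g : G) (v w : V), X.Adj v w → X.Adj (g • v) (g • w)) (hS : Special X N)
    (hfaith : ∀ n ∈ N, (∀ x : V, n • x = x) → n = 1) (hQ : D (G ⧸ N)) : D G := by
  letI : MulAction (G ⧸ N) (Lab X N) := MulAction.compHom _ (permQ hadj)
  have hsmul : ∀ (g : G) (a : Lab X N), (g : G ⧸ N) • a = permL hadj g a := fun _ _ => rfl
  have hΛ : ∀ (q : G ⧸ N) (a b : Lab X N), (crossG X N).Adj a b →
      (crossG X N).Adj (q • a) (q • b) := by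
    intro q a b h
    induction q using QuotientGroup.induction_on with
    | H g =>
      rw [hsmul, hsmul]
      exact cross_act hadj g h
  obtain ⟨α, hα⟩ := Q30.FJ.gact_exists (A := Multiplicative ℤ) (crossG X N) hΛ
  have hgw := gw_mem hC hD (Lab X N) (G ⧸ N) (Multiplicative ℤ) (crossG X N) hΛ α hα hC.base.int hQ
  obtain ⟨x₀⟩ := hX.1.nonempty
  obtain ⟨f, hf0, hf⟩ := exists_pot hX x₀ (H := RG X N) phi (fun x y _ => phi_inv x y)
    (fun x y z w h => phi_sq hS h)
  have hinj := pot_inj hX hS x₀ f hf0 hf
  have hαphi : ∀ (g : G) (x y : V), α (g : G ⧸ N) (phi x y) = phi (g • x) (g • y) := by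
    intro g x y
    rw [phi, map_mul, map_inv, gen, gen, hα, hα, hsmul, hsmul, permL_lab, permL_lab]
    rfl
  have heq : ∀ (g : G) (x : V), f (g • x) = f (g • x₀) * α (g : G ⧸ N) (f x) := by
    intro g x
    obtain ⟨p⟩ := hX.1.preconnected x x₀
    induction p with
    | nil => rw [hf0, map_one, mul_one]
    | @cons u v w hadj' _ ih =>
      have h1 := ih hf0
      rw [hf _ _ hadj', map_mul, hαphi, hf _ _ (hadj g _ _ hadj'), ← mul_assoc] at h1
      exact mul_right_cancel h1
  refine hD.of_injective G _ (MonoidHom.mk' (fun g =>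
    (⟨f (g • x₀), (g : G ⧸ N)⟩ : RG X N ⋊[α] (G ⧸ N))) ?_) ?_ hgw
  · intro g h
    apply SemidirectProduct.ext
    · show f ((g * h) • x₀) = f (g • x₀) * α (g : G ⧸ N) (f (h • x₀))
      rw [mul_smul, heq g (h • x₀)]
    · rfl
  · rw [injective_iff_map_eq_one]
    intro g hg
    have h1 : f (g • x₀) = 1 := congrArg SemidirectProduct.left hg
    have h2 : (g : G ⧸ N) = 1 := congrArg SemidirectProduct.right hg
    have h3 : g • x₀ = x₀ := hinj (h1.trans hf0.symm)
    have hgN : g ∈ N := (QuotientGroup.eq_one_iff g).1 h2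
    refine hfaith g hgN ?_
    intro x
    obtain ⟨p⟩ := hX.1.preconnected x₀ x
    have key : ∀ (u v : V), X.Walk u v → g • u = u → g • v = v := by
      intro u v p
      induction p with
      | nil => exact fun h => h
      | @cons u v w hadj' _ ih =>
        intro hu
        apply ih
        have h4 : Par X N (u, v) (u, g • v) := by
          have h5 := Relation.EqvGen.rel _ _ (Mv.act (X := X) u v g hgN)
          rwa [hu] at h5
        have h6 : X.Adj u (g • v) := by
          have h7 := hadj g u v hadj'
          rwa [hu] at h7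
        exact (hS.no_self u v (g • v) hadj' h6 h4).symm
    exact key x₀ x p h3

end Q27.SPC
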