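import Mathlib

/-!
# Median graphs and potentials
-/

set_option autoImplicit false

namespace Q27.SPC

open SimpleGraph

variable {V : Type}

/-- `x, y, z, w` is a 4-cycle -/
def Sq (X : SimpleGraph V) (x y z w : V) : Prop :=
  X.Adj x y ∧ X.Adj y z ∧ X.Adj z w ∧ X.Adj w x ∧ x ≠ z ∧ y ≠ w

/-- a connected graph in which any three vertices have a median; the 1-skeletons of the CAT(0) cube
complexes are the graphs of this kind with unique medians -/
def Med (X : SimpleGraph V) : Prop := X.Connected ∧ ∀ x y z : V, ∃ m : V,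
  X.dist x m + X.dist m y = X.dist x y ∧ X.dist y m + X.dist m z = X.dist y z ∧
  X.dist z m + X.dist m x = X.dist z x

variable {X : SimpleGraph V}

theorem Sq.rot {x y z w : V} (h : Sq X x y z w) : Sq X y z w x :=
  ⟨h.2.1, h.2.2.1, h.2.2.2.1, h.1, h.2.2.2.2.2, h.2.2.2.2.1.symm⟩

theorem Sq.rev {x y z w : V} (h : Sq X x y z w) : Sq X x w z y :=
  ⟨h.2.2.2.1.symm, h.2.2.1.symm, h.2.1.symm, h.1.symm, h.2.2.2.2.1, h.2.2.2.2.2.symm⟩

theorem Med.step (hX : Med X) (x₀ : V) {x y : V} (h : X.Adj x y) :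
    X.dist x₀ y = X.dist x₀ x + 1 ∨ X.dist x₀ x = X.dist x₀ y + 1 := by
  obtain ⟨m, h1, h2, h3⟩ := hX.2 x₀ x y
  have h4 : X.dist x y = 1 := SimpleGraph.dist_eq_one_iff_adj.2 h
  rw [h4] at h2
  rcases Nat.eq_zero_or_pos (X.dist x m) with h5 | h5
  · left
    have h6 : x = m := (hX.1.dist_eq_zero_iff).1 h5
    subst h6
    rw [SimpleGraph.dist_comm (u := y) (v := x), h4, SimpleGraph.dist_comm (u := x) (v := x₀),
      SimpleGraph.dist_comm (u := y) (v := x₀)] at h3
    omega
  · right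
    have h6 : X.dist m y = 0 := by omega
    have h7 : m = y := (hX.1.dist_eq_zero_iff).1 h6
    subst h7
    rw [SimpleGraph.dist_comm (u := m) (v := x), h4] at h1
    omega

theorem Med.quad (hX : Med X) (x₀ : V) {x y y' : V} (h : X.Adj x y) (h' : X.Adj x y') (hne : y ≠ y')
    (hy : X.dist x₀ x = X.dist x₀ y + 1) (hy' : X.dist x₀ x = X.dist x₀ y' + 1) :
    ∃ z, X.Adj z y ∧ X.Adj z y' ∧ X.dist x₀ y = X.dist x₀ z + 1 ∧ z ≠ x := by
  have h2 : X.dist y y' = 2 := by
    have h3 : X.dist y y' ≤ 2 := by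
      have h4 := hX.1.dist_triangle (u := y) (v := x) (w := y')
      rw [SimpleGraph.dist_eq_one_iff_adj.2 h.symm, SimpleGraph.dist_eq_one_iff_adj.2 h'] at h4
      exact h4
    have h5 : X.dist y y' ≠ 0 := fun h6 => hne ((hX.1.dist_eq_zero_iff).1 h6)
    have h7 : X.dist y y' ≠ 1 := by
      intro h8
      have h9 := hX.step x₀ (SimpleGraph.dist_eq_one_iff_adj.1 h8)
      omega
    omega
  obtain ⟨m, h3, h4, h5⟩ := hX.2 x₀ y y'
  rw [SimpleGraph.dist_comm (u := y') (v := m), SimpleGraph.dist_comm (u := m) (v := x₀),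
    SimpleGraph.dist_comm (u := y') (v := x₀)] at h5
  rw [SimpleGraph.dist_comm (u := y) (v := m), h2] at h4
  have h6 : X.dist m y = 1 := by omega
  have h7 : X.dist m y' = 1 := by omega
  refine ⟨m, SimpleGraph.dist_eq_one_iff_adj.1 h6, SimpleGraph.dist_eq_one_iff_adj.1 h7, by omega, ?_⟩
  rintro rfl
  omega

theorem exists_parent (hX : Med X) (x₀ x : V) (h : x ≠ x₀) :
    ∃ y, X.Adj x y ∧ X.dist x₀ x = X.dist x₀ y + 1 := by
  obtain ⟨p, hp⟩ := (hX.1 x x₀).exists_walk_length_eq_dist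
  cases p with
  | nil => exact absurd rfl h
  | cons hadj q =>
    rename_i y
    refine ⟨y, hadj, ?_⟩
    rw [SimpleGraph.Walk.length_cons] at hp
    have h1 := SimpleGraph.dist_le q
    rw [SimpleGraph.dist_comm (u := x) (v := x₀)] at hp
    rw [SimpleGraph.dist_comm (u := y) (v := x₀)] at h1
    have h2 := hX.step x₀ hadj
    omega

/-- **potentials** -/
theorem exists_pot (hX : Med X) (x₀ : V) {H : Type} [Group H] (φ : V → V → H)
    (hinv : ∀ x y, X.Adj x y → φ y x = (φ x y)⁻¹)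
    (hsq : ∀ x y z w, Sq X x y z w → φ x y * φ y z = φ x w * φ w z) :
    ∃ f : V → H, f x₀ = 1 ∧ ∀ x y, X.Adj x y → f y = f x * φ x y := by
  classical
  obtain ⟨par, hpar⟩ : ∃ par : V → V, ∀ x, x ≠ x₀ → X.Adj x (par x) ∧
      X.dist x₀ x = X.dist x₀ (par x) + 1 := by
    refine ⟨fun x => if h : x ≠ x₀ then (exists_parent hX x₀ x h).choose else x, ?_⟩
    intro x hx
    simp only [dif_pos hx]
    exact (exists_parent hX x₀ x hx).choose_spec
  let F : ℕ → V → H := fun n => Nat.rec (fun _ => 1) (fun _ f x => f (par x) * φ (par x) x) n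
  have hF : ∀ n x, F (n + 1) x = F n (par x) * φ (par x) x := fun _ _ => rfl
  let f : V → H := fun x => F (X.dist x₀ x) x
  have hfp : ∀ x, x ≠ x₀ → f x = f (par x) * φ (par x) x := by
    intro x hx
    show F (X.dist x₀ x) x = _
    rw [(hpar x hx).2, hF]
  have main : ∀ n x y, X.Adj x y → X.dist x₀ x = n + 1 → X.dist x₀ y = n →
      f x = f y * φ y x := by
    intro n
    induction n with
    | zero =>
      intro x y hxy hx hy
      have h1 : x₀ = y := (hX.1.dist_eq_zero_iff).1 hy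
      have hx0 : x ≠ x₀ := by
        rintro rfl
        rw [SimpleGraph.dist_self] at hx
        omega
      have h2 : x₀ = par x := (hX.1.dist_eq_zero_iff).1 (by
        have := (hpar x hx0).2
        omega)
      rw [hfp x hx0, ← h2, ← h1]
    | succ n ih =>
      intro x y hxy hx hy
      have hx0 : x ≠ x₀ := by
        rintro rfl
        rw [SimpleGraph.dist_self] at hx
        omega
      obtain ⟨h1, h2⟩ := hpar x hx0
      by_cases hyp : y = par x
      · rw [hfp x hx0, hyp]
      · obtain ⟨z, hz1, hz2, hz3, hz4⟩ := hX.quad x₀ hxy h1 hyp (by omega) h2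
        have h3 := ih y z hz1.symm (by omega) (by omega)
        have h4 := ih (par x) z hz2.symm (by omega) (by omega)
        have h5 := hsq z (par x) x y ⟨hz2, h1.symm, hxy, hz1.symm, hz4, fun h => hyp h.symm⟩
        rw [hfp x hx0, h3, h4, mul_assoc, mul_assoc, h5]
  refine ⟨f, ?_, ?_⟩
  · show F (X.dist x₀ x₀) x₀ = 1
    rw [SimpleGraph.dist_self]
    rfl
  · intro x y hxy
    rcases hX.step x₀ hxy with h | h
    · exact main _ y x hxy.symm h rfl
    · rw [main _ x y hxy h rfl, hinv x y hxy, inv_mul_cancel_right]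

end Q27.SPC
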